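import Pool.Agent.H159.Clarkson.Comp

/-!
# MP_5deb6a_an: Clarkson inequalities for `n`-tuples of operators

Q1 is true, Q2 is true for `1 < p ≤ 2` and false for every `0 < p < 1`.

The proof. Let `T` be the matrix with the rows `(1, …, 1)` and `e_j - e_k`, `j < k`. Its entries are
bounded by `1` and `Tᵀ T = n`. This gives the end points `p = 1` and `p = 2` of the inequality
`(∑_i ‖∑_j T_ij A_j‖_p^q)^{1/q} ≤ n^{1/q} (∑_j ‖A_j‖_p^p)^{1/p}`; the three lines theorem, applied to
the multilinear form built from singular value decompositions, gives it for `1 < p < 2`, and duality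
gives the reversed one for `p ≥ 2`. Compressions to finite dimensional subspaces give the general case.
-/

set_option autoImplicit false

namespace Pool.Agent.Results.MP_5deb6a_an.ClarksonTuples

open scoped BigOperators

universe u

variable {H : Type u} [NormedAddCommGroup H] [InnerProductSpace ℂ H]

/-- The `k`-th singular value (`k = 0, 1, 2, …`, so that this is `s_{k+1}(A)`) of the bounded operator
`A`: the distance in the operator norm of `A` from the operators of rank at most `k`. -/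
noncomputable def singularValue (A : H →L[ℂ] H) (k : ℕ) : ℝ :=
  ⨅ F : {F : H →L[ℂ] H // LinearMap.rank (F : H →ₗ[ℂ] H) ≤ (k : Cardinal)}, ‖A - F.1‖

/-- `A` belongs to the Schatten class `S_p`: the series `∑ s_k(A)^p` converges. -/
def InSchatten (p : ℝ) (A : H →L[ℂ] H) : Prop := Summable fun k => singularValue A k ^ p

/-- The Schatten `p`-norm `(∑ s_k(A)^p)^{1/p}`. -/
noncomputable def schatten (p : ℝ) (A : H →L[ℂ] H) : ℝ := (∑' k, singularValue A k ^ p) ^ (1 / p)

/-- `L = n (∑ ‖A_j‖_p^p)^{q/p}` -/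
noncomputable def lhs (p q : ℝ) {n : ℕ} (A : Fin n → H →L[ℂ] H) : ℝ :=
  n * (∑ j, schatten p (A j) ^ p) ^ (q / p)

/-- `R = ‖∑ A_j‖_p^q + ∑_{j<k} ‖A_j - A_k‖_p^q` -/
noncomputable def rhs (p q : ℝ) {n : ℕ} (A : Fin n → H →L[ℂ] H) : ℝ :=
  schatten p (∑ j, A j) ^ q + ∑ j, ∑ k ∈ Finset.Ioi j, schatten p (A j - A k) ^ q

/-- All the operators that occur in `R` belong to `S_p`. -/
def AllInSchatten (p : ℝ) {n : ℕ} (A : Fin n → H →L[ℂ] H) : Prop :=
  InSchatten p (∑ j, A j) ∧ ∀ j k, InSchatten p (A j - A k)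

open Pool.Agent.H159.Clarkson

lemma singularValue_eq (A : H →L[ℂ] H) (k : ℕ) : singularValue A k = sv A k := rfl

lemma schatten_eq (p : ℝ) (A : H →L[ℂ] H) : schatten p A = sn p A := rfl

/-- In finite dimensions these are Mathlib's singular values. -/
theorem singularValue_eq_singularValues [FiniteDimensional ℂ H] (A : H →L[ℂ] H) (k : ℕ) :
    singularValue A k = (A : H →ₗ[ℂ] H).singularValues k := sv_eq_singularValues A k

/-! ### the matrix -/

/-- the matrix `T` -/
noncomputable def T (n : ℕ) : Option (Fin n × Fin n) → Fin n → ℝ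
  | none, _ => 1
  | some (a, b), j => if a < b then (if a = j then 1 else 0) - (if b = j then 1 else 0) else 0

lemma T_le (n : ℕ) (i : Option (Fin n × Fin n)) (j : Fin n) : |T n i j| ≤ 1 := by
  rcases i with _ | ⟨a, b⟩
  · simp [T]
  · simp only [T]
    split_ifs <;> simp

lemma T_orth (n : ℕ) (j j' : Fin n) :
    ∑ i, T n i j * T n i j' = if j = j' then (n : ℝ) else 0 := by
  rw [Fintype.sum_option, Fintype.sum_prod_type]
  set S : Fin n → Fin n → ℝ := fun a b =>
    ((if a = j then (1 : ℝ) else 0) - (if b = j then 1 else 0)) *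
      ((if a = j' then (1 : ℝ) else 0) - (if b = j' then 1 else 0)) with hS
  have hsymm : ∀ a b, S a b = S b a := by intro a b; rw [hS]; ring
  have hdiag : ∀ a, S a a = 0 := by intro a; rw [hS]; simp
  have h1 : ∀ a b, T n (some (a, b)) j * T n (some (a, b)) j' = if a < b then S a b else 0 := by
    intro a b
    by_cases h : a < b
    · simp only [T, if_pos h, hS]
    · simp only [T, if_neg h, mul_zero]
  simp only [h1]
  have h2 : ∑ a, ∑ b, S a b = (∑ a, ∑ b, if a < b then S a b else 0) +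
      ∑ a, ∑ b, if a < b then S a b else 0 := by
    have h3 : ∀ a b, S a b = (if a < b then S a b else 0) + (if b < a then S b a else 0) := by
      intro a b
      rcases lt_trichotomy a b with h | h | h
      · rw [if_pos h, if_neg (not_lt.2 h.le), add_zero]
      · subst h; simp [hdiag]
      · rw [if_neg (not_lt.2 h.le), if_pos h, zero_add, hsymm]
    calc ∑ a, ∑ b, S a b = ∑ a, ∑ b, ((if a < b then S a b else 0) + (if b < a then S b a else 0)) :=
          Finset.sum_congr rfl fun a _ => Finset.sum_congr rfl fun b _ => h3 a b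
      _ = (∑ a, ∑ b, if a < b then S a b else 0) + ∑ a, ∑ b, (if b < a then S b a else 0) := by
          simp only [Finset.sum_add_distrib]
      _ = _ := by
          congr 1
          rw [Finset.sum_comm]
  have h4 : ∑ a, ∑ b, S a b = 2 * (if j = j' then (n : ℝ) else 0) - 2 := by
    have hd1 : ∀ j : Fin n, ∑ a, (if a = j then (1 : ℝ) else 0) = 1 := by intro j; simp
    have hd2 : ∑ a : Fin n, (if a = j then (1 : ℝ) else 0) * (if a = j' then 1 else 0) =
        if j = j' then 1 else 0 := by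
      by_cases h : j = j'
      · subst h; simp
      · have h' : ¬ j' = j := fun e => h e.symm
        simp [h, h']
    generalize hd : (fun (a j : Fin n) => if a = j then (1 : ℝ) else 0) = d at *
    have hd1' : ∀ j : Fin n, ∑ a, d a j = 1 := by intro j; rw [← hd]; exact hd1 j
    have hd2' : ∑ a : Fin n, d a j * d a j' = if j = j' then 1 else 0 := by rw [← hd]; exact hd2
    have h5 : ∀ a b, S a b = d a j * d a j' - d a j * d b j' - d a j' * d b j + d b j * d b j' := by
      intro a b; rw [hS, ← hd]; ring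
    have e1 : ∑ a : Fin n, ∑ b : Fin n, d a j * d b j' = 1 := by
      rw [← Finset.sum_mul_sum, hd1', hd1', mul_one]
    have e2 : ∑ a : Fin n, ∑ b : Fin n, d a j' * d b j = 1 := by
      rw [← Finset.sum_mul_sum, hd1', hd1', mul_one]
    have e3 : ∑ a : Fin n, ∑ _b : Fin n, d a j * d a j' = n * (if j = j' then 1 else 0) := by
      rw [← hd2', Finset.mul_sum]
      refine Finset.sum_congr rfl fun a _ => ?_
      rw [Finset.sum_const, Finset.card_univ, Fintype.card_fin, nsmul_eq_mul]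
    have e4 : ∑ _a : Fin n, ∑ b : Fin n, d b j * d b j' = n * (if j = j' then 1 else 0) := by
      rw [hd2', Finset.sum_const, Finset.card_univ, Fintype.card_fin, nsmul_eq_mul]
    simp only [h5, Finset.sum_add_distrib, Finset.sum_sub_distrib]
    rw [e1, e2, e3, e4]
    split_ifs <;> ring
  have h6 : T n none j * T n none j' = 1 := by simp [T]
  rw [h6]
  linarith

lemma sum_T_none {n : ℕ} (A : Fin n → H →L[ℂ] H) :
    ∑ j, (T n none j : ℂ) • A j = ∑ j, A j := by
  simp [T]

lemma sum_T_some {n : ℕ} (A : Fin n → H →L[ℂ] H) (a b : Fin n) :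
    ∑ j, (T n (some (a, b)) j : ℂ) • A j = if a < b then A a - A b else 0 := by
  split_ifs with h
  · have h1 : ∀ j ∈ Finset.univ, ((T n (some (a, b)) j : ℝ) : ℂ) • A j =
        (if a = j then A j else 0) - (if b = j then A j else 0) := by
      intro j _
      simp only [T, if_pos h]
      by_cases h1 : a = j <;> by_cases h2 : b = j <;> simp [h1, h2]
    rw [Finset.sum_congr rfl h1, Finset.sum_sub_distrib]
    simp only [Finset.sum_ite_eq, Finset.mem_univ, if_true]
  · simp [T, if_neg h]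

lemma tsum_nonneg' (p : ℝ) (A : H →L[ℂ] H) : 0 ≤ ∑' k, sv A k ^ p :=
  tsum_nonneg fun k => Real.rpow_nonneg (sv_nonneg A k) p

lemma schatten_rpow {p : ℝ} (r : ℝ) (A : H →L[ℂ] H) :
    schatten p A ^ r = (∑' k, sv A k ^ p) ^ (r / p) := by
  unfold schatten
  change ((∑' k, sv A k ^ p) ^ (1 / p)) ^ r = _
  rw [← Real.rpow_mul (tsum_nonneg' p A)]
  congr 1
  ring

lemma lhs_eq {p q : ℝ} (hp : p ≠ 0) {n : ℕ} (A : Fin n → H →L[ℂ] H) :
    lhs p q A = n * (∑ j, ∑' k, sv (A j) k ^ p) ^ (q / p) := by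
  unfold lhs
  congr 2
  refine Finset.sum_congr rfl fun j _ => ?_
  rw [schatten_rpow, div_self hp, Real.rpow_one]

lemma rhs_eq {p q : ℝ} (hp : 0 < p) (hq : 0 < q) {n : ℕ} (A : Fin n → H →L[ℂ] H) :
    rhs p q A = ∑ i, (∑' l, sv (∑ j, (T n i j : ℂ) • A j) l ^ p) ^ (q / p) := by
  rw [Fintype.sum_option, Fintype.sum_prod_type, sum_T_none]
  unfold rhs
  rw [schatten_rpow]
  congr 1
  refine Finset.sum_congr rfl fun a _ => ?_
  simp only [sum_T_some]
  rw [← Finset.sum_subset (Finset.subset_univ (Finset.Ioi a))]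
  · refine Finset.sum_congr rfl fun b hb => ?_
    rw [if_pos (Finset.mem_Ioi.1 hb), schatten_rpow]
  · intro b _ hb
    rw [if_neg (fun h => hb (Finset.mem_Ioi.2 h))]
    simp only [sv_zero, Real.zero_rpow hp.ne', tsum_zero]
    exact Real.zero_rpow (by positivity)

lemma allIn {p : ℝ} (hp : 0 < p) {n : ℕ} {A : Fin n → H →L[ℂ] H} (hA : ∀ j, InSchatten p (A j)) :
    AllInSchatten p A := by
  refine ⟨inSp_sum _ hp fun j _ => hA j, fun j k => ?_⟩
  have h := InSp.add hp (A := A j) (B := (-1 : ℂ) • A k) (hA j) (InSp.smul hp (hA k) (-1))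
  rw [neg_one_smul, ← sub_eq_add_neg] at h
  exact h

theorem q1 [CompleteSpace H] {n : ℕ} (hn : 2 ≤ n) {p q : ℝ} (hp : 2 ≤ p) (hpq : 1 / p + 1 / q = 1)
    {A : Fin n → H →L[ℂ] H} (hA : ∀ j, InSchatten p (A j)) : lhs p q A ≤ rhs p q A := by
  have hp0 : 0 < p := by linarith
  have hq0 : 0 < q := by
    have h1 : 1 / p < 1 := by rw [div_lt_one hp0]; linarith
    exact one_div_pos.1 (by linarith)
  rw [lhs_eq hp0.ne', rhs_eq hp0 hq0]
  exact gen_ge A (T_le n) (T_orth n) (by exact_mod_cast (by omega : 0 < n)) hp hpq hA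

theorem q2 [CompleteSpace H] {n : ℕ} {p q : ℝ} (hp : 1 < p) (hp2 : p ≤ 2)
    (hpq : 1 / p + 1 / q = 1)
    {A : Fin n → H →L[ℂ] H} (hA : ∀ j, InSchatten p (A j)) : rhs p q A ≤ lhs p q A := by
  have hp0 : 0 < p := by linarith
  have hq0 : 0 < q := by
    have h1 : 1 / p < 1 := by rw [div_lt_one hp0]; linarith
    exact one_div_pos.1 (by linarith)
  rw [lhs_eq hp0.ne', rhs_eq hp0 hq0]
  exact gen_le A (T_le n) (T_orth n) (by positivity) hp hp2 hpq hA

/-! ### `0 < p < 1` -/

section counter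

variable {e : H}

/-- projection on the line of `e` -/
noncomputable def P (e : H) : H →L[ℂ] H := (innerSL ℂ e).smulRight e

lemma P_apply (e x : H) : P e x = inner ℂ e x • e := rfl

lemma rankLe_P (e : H) (a : ℂ) : RankLe (a • P e) 1 := by
  unfold RankLe
  have h1 : LinearMap.range ((a • P e : H →L[ℂ] H) : H →ₗ[ℂ] H) ≤
      Submodule.span ℂ (({e} : Finset H) : Set H) := by
    rintro _ ⟨x, rfl⟩
    have h2 : ((a • P e : H →L[ℂ] H) : H →ₗ[ℂ] H) x = (a * inner ℂ e x) • e := by
      change (a • P e) x = _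
      rw [_root_.smul_apply, P_apply, smul_smul]
    rw [h2]
    exact Submodule.smul_mem _ _ (Submodule.subset_span (by simp))
  have h2 := (Submodule.rank_mono h1).trans (rank_span_finset_le (R := ℂ) ({e} : Finset H))
  simpa using h2

lemma norm_P (he : ‖e‖ = 1) (a : ℂ) : ‖a • P e‖ = ‖a‖ := by
  rw [norm_smul]
  have h1 : ‖P e‖ = 1 := by
    unfold P
    rw [ContinuousLinearMap.norm_smulRight_apply, innerSL_apply_norm, he, one_mul]
  rw [h1, mul_one]

lemma sv_P_zero (he : ‖e‖ = 1) (a : ℂ) : sv (a • P e) 0 = ‖a‖ := by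
  refine le_antisymm ?_ ?_
  · have := sv_zero_le (a • P e)
    rwa [norm_P he] at this
  · refine le_sv fun F hF => ?_
    have h1 : F = 0 := by
      unfold RankLe at hF
      rw [Nat.cast_zero, nonpos_iff_eq_zero] at hF
      have h2 : LinearMap.range (F : H →ₗ[ℂ] H) = ⊥ := Submodule.rank_eq_zero.1 hF
      ext x
      have : (F : H →ₗ[ℂ] H) x ∈ LinearMap.range (F : H →ₗ[ℂ] H) := ⟨x, rfl⟩
      rw [h2] at this
      simpa using this
    rw [h1, sub_zero, norm_P he]

lemma sv_P_pos (e : H) (a : ℂ) {k : ℕ} (hk : k ≠ 0) : sv (a • P e) k = 0 := by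
  refine le_antisymm ?_ (sv_nonneg _ _)
  have := sv_le (A := a • P e) ((rankLe_P e a).mono (Nat.one_le_iff_ne_zero.2 hk))
  simpa using this

lemma hasSum_P (he : ‖e‖ = 1) {p : ℝ} (hp : p ≠ 0) (a : ℂ) :
    HasSum (fun k => sv (a • P e) k ^ p) (‖a‖ ^ p) := by
  have := hasSum_single (f := fun k => sv (a • P e) k ^ p) 0 (fun k hk => by
    simp only [sv_P_pos e a hk, Real.zero_rpow hp])
  simpa only [sv_P_zero he] using this

lemma schatten_P (he : ‖e‖ = 1) {p : ℝ} (hp : p ≠ 0) (a : ℂ) : schatten p (a • P e) = ‖a‖ := by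
  rw [schatten_eq]
  unfold sn
  rw [(hasSum_P he hp a).tsum_eq, ← Real.rpow_mul (norm_nonneg _), mul_one_div_cancel hp,
    Real.rpow_one]

end counter

theorem q2_counter [Nontrivial H] {n : ℕ} (hn : 2 ≤ n) {p q : ℝ} (hp : 0 < p) (hp1 : p < 1)
    (hpq : 1 / p + 1 / q = 1) :
    ∃ A : Fin n → H →L[ℂ] H, (∀ j, InSchatten p (A j)) ∧ AllInSchatten p A ∧
      (∀ j, A j ≠ 0) ∧ ∑ j, A j ≠ 0 ∧ (∀ j k, j ≠ k → A j ≠ A k) ∧ lhs p q A < rhs p q A := by
  have hq : q < 0 := by
    have h1 : 1 < 1 / p := by rw [lt_div_iff₀ hp]; linarith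
    have h2 : 1 / q < 0 := by linarith
    exact one_div_neg.1 h2
  obtain ⟨x, hx⟩ := exists_ne (0 : H)
  obtain ⟨e, he⟩ : ∃ e : H, ‖e‖ = 1 := ⟨((‖x‖ : ℂ)⁻¹) • x, by
    rw [norm_smul, norm_inv, Complex.norm_real, norm_norm]
    exact inv_mul_cancel₀ (norm_ne_zero_iff.2 hx)⟩
  have hn0 : (0 : ℝ) < n := by exact_mod_cast (by omega : 0 < n)
  set ε : ℝ := (2 * (n : ℝ)) ^ (1 / q) with hε
  have hε0 : 0 < ε := Real.rpow_pos_of_pos (by positivity) _
  have hεq : ε ^ q = 2 * n := by
    rw [hε, ← Real.rpow_mul (by positivity), one_div_mul_cancel hq.ne, Real.rpow_one]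
  set c : Fin n → ℝ := fun j => 1 + (j.val : ℝ) * ε with hc
  have hc1 : ∀ j, 1 ≤ c j := fun j => by
    have : 0 ≤ (j.val : ℝ) * ε := by positivity
    rw [hc]; simp only; linarith
  set A : Fin n → H →L[ℂ] H := fun j => ((c j : ℝ) : ℂ) • P e with hA
  have hP : P e ≠ 0 := by
    intro h
    have := norm_P he 1
    rw [h, smul_zero] at this
    simp at this
  have hsum : ∑ j, A j = ((∑ j, c j : ℝ) : ℂ) • P e := by
    rw [hA, ← Finset.sum_smul]; push_cast; rfl
  have hdiff : ∀ j k, A j - A k = ((c j - c k : ℝ) : ℂ) • P e := by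
    intro j k
    rw [hA]; simp only; rw [← sub_smul]; push_cast; rfl
  have hAin : ∀ j, InSchatten p (A j) := fun j => (hasSum_P he hp.ne' _).summable
  have hsum0 : 0 < ∑ j, c j := Finset.sum_pos (fun j _ => by linarith [hc1 j])
    ⟨⟨0, by omega⟩, Finset.mem_univ _⟩
  refine ⟨A, hAin, allIn hp hAin, ?_, ?_, ?_, ?_⟩
  · intro j
    refine smul_ne_zero ?_ hP
    have := hc1 j
    exact_mod_cast (by linarith : c j ≠ 0)
  · rw [hsum]
    refine smul_ne_zero ?_ hP
    exact_mod_cast hsum0.ne'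
  · intro j k hjk h
    rw [← sub_eq_zero, hdiff] at h
    rcases smul_eq_zero.1 h with h1 | h1
    · have h2 : c j - c k = 0 := by exact_mod_cast h1
      have h3 : ((j.val : ℝ) - k.val) * ε = 0 := by
        have : c j - c k = ((j.val : ℝ) - k.val) * ε := by rw [hc]; ring
        rw [← this, h2]
      rcases mul_eq_zero.1 h3 with h4 | h4
      · exact hjk (Fin.ext (by exact_mod_cast sub_eq_zero.1 h4))
      · exact hε0.ne' h4
    · exact hP h1
  · have hL : lhs p q A ≤ n := by
      unfold lhs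
      refine mul_le_of_le_one_right hn0.le ?_
      refine Real.rpow_le_one_of_one_le_of_nonpos ?_ (div_nonpos_of_nonpos_of_nonneg hq.le hp.le)
      have h1 : ∀ j, schatten p (A j) ^ p = c j ^ p := by
        intro j
        rw [hA]
        simp only
        rw [schatten_P he hp.ne', Complex.norm_real, Real.norm_eq_abs,
          abs_of_nonneg (by linarith [hc1 j])]
      simp only [h1]
      have h2 : (1 : ℝ) ≤ c ⟨0, by omega⟩ ^ p := Real.one_le_rpow (hc1 _) hp.le
      exact h2.trans (Finset.single_le_sum (f := fun j => c j ^ p)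
        (fun j _ => Real.rpow_nonneg (by linarith [hc1 j]) _) (Finset.mem_univ _))
    have hR : ε ^ q ≤ rhs p q A := by
      unfold rhs
      have h0 : ∀ B : H →L[ℂ] H, 0 ≤ schatten p B ^ q := fun B =>
        Real.rpow_nonneg (Real.rpow_nonneg (tsum_nonneg' p B) _) _
      have h1 : schatten p (A ⟨0, by omega⟩ - A ⟨1, by omega⟩) ^ q = ε ^ q := by
        rw [hdiff, schatten_P he hp.ne', Complex.norm_real, Real.norm_eq_abs]
        congr 1
        rw [hc]
        simp only [Nat.cast_zero, zero_mul, Nat.cast_one, one_mul, add_zero]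
        rw [show (1 : ℝ) - (1 + ε) = -ε by ring, abs_neg, abs_of_pos hε0]
      have h2 : schatten p (A ⟨0, by omega⟩ - A ⟨1, by omega⟩) ^ q ≤
          ∑ k ∈ Finset.Ioi (⟨0, by omega⟩ : Fin n), schatten p (A ⟨0, by omega⟩ - A k) ^ q :=
        Finset.single_le_sum (f := fun k => schatten p (A ⟨0, by omega⟩ - A k) ^ q)
          (fun k _ => h0 _) (Finset.mem_Ioi.2 (by rw [Fin.lt_def]; simp))
      have h3 : ∑ k ∈ Finset.Ioi (⟨0, by omega⟩ : Fin n), schatten p (A ⟨0, by omega⟩ - A k) ^ q ≤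
          ∑ j, ∑ k ∈ Finset.Ioi j, schatten p (A j - A k) ^ q :=
        Finset.single_le_sum (f := fun j => ∑ k ∈ Finset.Ioi j, schatten p (A j - A k) ^ q)
          (fun j _ => Finset.sum_nonneg fun k _ => h0 _) (Finset.mem_univ _)
      have h4 := h0 (∑ j, A j)
      rw [h1] at h2
      linarith
    rw [hεq] at hR
    linarith

/-- **Clarkson inequalities for `n`-tuples of operators.** For the operators `A_0, …, A_{n-1}`, `n ≥ 2`,
of the Schatten class `S_p` of an arbitrary complex Hilbert space, and `1/p + 1/q = 1`: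

* Q1: `L ≤ R` when `2 ≤ p < ∞`;
* Q2: `R ≤ L` when `1 < p ≤ 2`;
* Q2, `0 < p < 1`: on every nonzero complex Hilbert space, for every `n ≥ 2` and every `0 < p < 1`,
  there are nonzero pairwise distinct operators in `S_p`, with nonzero sum, such that `L < R`. -/
theorem result :
    (∀ (H : Type u) [NormedAddCommGroup H] [InnerProductSpace ℂ H] [CompleteSpace H]
      (n : ℕ) (p q : ℝ) (A : Fin n → H →L[ℂ] H), 2 ≤ n → 2 ≤ p → 1 / p + 1 / q = 1 →
      (∀ j, InSchatten p (A j)) → AllInSchatten p A ∧ lhs p q A ≤ rhs p q A) ∧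
    (∀ (H : Type u) [NormedAddCommGroup H] [InnerProductSpace ℂ H] [CompleteSpace H]
      (n : ℕ) (p q : ℝ) (A : Fin n → H →L[ℂ] H), 2 ≤ n → 1 < p → p ≤ 2 → 1 / p + 1 / q = 1 →
      (∀ j, InSchatten p (A j)) → AllInSchatten p A ∧ rhs p q A ≤ lhs p q A) ∧
    (∀ (H : Type u) [NormedAddCommGroup H] [InnerProductSpace ℂ H] [CompleteSpace H] [Nontrivial H]
      (n : ℕ) (p q : ℝ), 2 ≤ n → 0 < p → p < 1 → 1 / p + 1 / q = 1 →
      ∃ A : Fin n → H →L[ℂ] H, (∀ j, InSchatten p (A j)) ∧ AllInSchatten p A ∧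
        (∀ j, A j ≠ 0) ∧ ∑ j, A j ≠ 0 ∧ (∀ j k, j ≠ k → A j ≠ A k) ∧ lhs p q A < rhs p q A) := by
  refine ⟨fun H _ _ _ n p q A hn hp hpq hA => ⟨allIn (by linarith) hA, q1 hn hp hpq hA⟩,
    fun H _ _ _ n p q A hn hp hp2 hpq hA => ⟨allIn (by linarith) hA, q2 hp hp2 hpq hA⟩,
    fun H _ _ _ _ n p q hn hp hp1 hpq => q2_counter hn hp hp1 hpq⟩

end Pool.Agent.Results.MP_5deb6a_an.ClarksonTuples
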